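import Pool.Agent.H6.G9.Targets
import Pool.Agent.H6.GS2.Bas
import Pool.Agent.H30.GSW.KER
import Pool.Agent.H76.GSW.GEX

/-!
# Theorem (H), MP_c59857_nt: row NRS, the mean squares over the multiples of a prime
-/

set_option autoImplicit false

namespace Pool.Agent.H37.G9

open Finset Pool.Agent.H6.N4D Pool.Agent.H93 Pool.Agent.H93.GS Pool.Agent.H6.GS2 Pool.Agent.H6.G9

/-- the mean with the kernel is a difference of two means -/
theorem nrs_split (q N n : ℕ) (F : ℕ → ℂ) :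
    ac 1 N n (fun m => (EB.D q m : ℂ) * F m) = ac q N n F - ac 1 N n F := by
  unfold ac EB.D
  have h1 : (Ioc n (n + N)).filter (fun m => 1 ∣ m) = Ioc n (n + N) := by
    ext m; simp
  rw [h1]
  have h2 : ∑ m ∈ Ioc n (n + N), (((if q ∣ m then (q : ℝ) else 0) - 1 : ℝ) : ℂ) * F m =
      (∑ m ∈ (Ioc n (n + N)).filter (fun m => q ∣ m), F m) * q - ∑ m ∈ Ioc n (n + N), F m := by
    rw [sum_filter, sum_mul, ← sum_sub_distrib]
    refine sum_congr rfl fun m _ => ?_
    split_ifs <;> push_cast <;> ring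
  rw [h2]
  push_cast
  ring

/-- the mean square is the real part of a mean -/
theorem nrs_sq (q N n : ℕ) (F : Ex) : ar q N n (fun m => ‖F.f m‖ ^ 2) =
    (ac q N n (fun m => F.f m * (starRingEnd ℂ) (F.f m))).re := by
  rw [ac_re]
  refine ar_congr _ _ _ fun m _ _ => ?_
  rw [Complex.mul_conj, Complex.ofReal_re, Complex.normSq_eq_norm_sq]

theorem nrs_eq (q N n : ℕ) (F : Ex) : nrm q N n F =
    (∑ i ∈ range F.k, ∑ j ∈ range F.k, (starRingEnd ℂ) (F.c i) * (F.c j *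
      ac 1 N n (fun m => (EB.D q m : ℂ) * ee ((F.a j - F.a i) * m)))).re := by
  unfold nrm
  rw [nrs_sq, nrs_sq, ← Complex.sub_re, ← nrs_split]
  congr 1
  have h1 : (fun m : ℕ => (EB.D q m : ℂ) * (F.f m * (starRingEnd ℂ) (F.f m))) =
      fun m => ((EB.D q m : ℂ) * F.f m) * (starRingEnd ℂ) (F.f m) := by
    funext m; ring
  rw [h1, ac_conj]
  refine sum_congr rfl fun i _ => ?_
  rw [← mul_sum]
  congr 1
  have h2 : (fun m : ℕ => (EB.D q m : ℂ) * F.f m * ee (-(F.a i * m))) =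
      fun m => ∑ j ∈ range F.k, F.c j * ((EB.D q m : ℂ) * ee ((F.a j - F.a i) * m)) := by
    funext m
    unfold Ex.f
    rw [mul_sum, sum_mul]
    refine sum_congr rfl fun j _ => ?_
    have h3 : ee ((F.a j - F.a i) * m) = ee (F.a j * m) * ee (-(F.a i * m)) := by
      rw [← ee_add]; congr 1; ring
    rw [h3]; ring
  rw [h2, ac_sum]
  exact sum_congr rfl fun j _ => by rw [ac_mul]

/-- a fraction which is not an integer -/
theorem nrs_frac (q : ℕ) (hq : 1 ≤ q) (b : ℤ) (h : ¬ ((q : ℤ) ∣ b)) :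
    1 / (q : ℝ) ≤ nd ((b : ℝ) / q) := by
  have hq0 : (0 : ℝ) < q := by exact_mod_cast hq
  unfold nd
  have h1 : (b : ℝ) / q - round ((b : ℝ) / q) = ((b - round ((b : ℝ) / q) * q : ℤ) : ℝ) / q := by
    push_cast; field_simp
  rw [h1, abs_div, abs_of_pos hq0]
  have h2 : b - round ((b : ℝ) / q) * q ≠ 0 := by
    intro h3
    exact h ⟨round ((b : ℝ) / q), by linarith⟩
  have h3 : (1 : ℝ) ≤ |((b - round ((b : ℝ) / q) * q : ℤ) : ℝ)| := by
    exact_mod_cast Int.one_le_abs h2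
  gcongr

theorem nrs_ker (hK : T_KER) (m N n q : ℕ) (x y : ℝ) (hm : 300 ≤ m) (hN : 2 ^ m ≤ 2 * N)
    (hq : q ∈ EB.QQ m) (h : Sp m q x y) :
    ‖ac 1 N n (fun k => (EB.D q k : ℂ) * ee ((x - y) * k))‖ ≤ (1 / 2) ^ (m / 300) := by
  unfold EB.QQ at hq
  rw [mem_filter, mem_Ioc] at hq
  obtain ⟨⟨hq1, hq2⟩, hqp⟩ := hq
  have hq1' : 1 ≤ q := hqp.one_le
  have hq0 : (0 : ℝ) < q := by exact_mod_cast hq1'
  have hN2 : (2 : ℝ) ^ m ≤ 2 * N := by exact_mod_cast hN
  have hp0 : (0 : ℝ) < 2 ^ m := by positivity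
  have hN0 : (0 : ℝ) < N := by linarith
  have hqR : (q : ℝ) ≤ 2 ^ (m / 200) := by exact_mod_cast hq2
  have hqN : q ≤ N := by
    have h1 : 2 ^ (m / 200) * 2 ≤ 2 ^ m := by
      rw [← pow_succ]
      exact Nat.pow_le_pow_right (by norm_num) (by omega)
    omega
  obtain ⟨-, hK2, hK3⟩ := hK q N n (x - y) hq1' hqN
  rcases h with h | h
  · have h1 : (2 : ℝ) ^ (m / 90) / 2 ^ m ≤ 1 / (2 * q) := by
      rw [div_le_div_iff₀ hp0 (by positivity)]
      calc (2 : ℝ) ^ (m / 90) * (2 * q) ≤ 2 ^ (m / 90) * (2 * 2 ^ (m / 200)) := by gcongr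
        _ = 2 ^ (m / 90 + m / 200 + 1) := by rw [pow_succ, pow_add]; ring
        _ ≤ 2 ^ m := pow_le_pow_right₀ (by norm_num) (by omega)
        _ = 1 * 2 ^ m := by ring
    have h2 := hK3 (N / (2 * q)) (by positivity) (fun b hb => by
      have h3 := nrs_frac q hq1' b hb
      have h4 : nd ((b : ℝ) / q) ≤ nd (x - y - (b : ℝ) / q) + nd (x - y) := by
        have h5 := nd_sub_le (x - y) (x - y - (b : ℝ) / q)
        have h6 : x - y - (x - y - (b : ℝ) / q) = (b : ℝ) / q := by ring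
        rw [h6] at h5
        linarith
      have h5 : (N : ℝ) / (2 * q) / N = 1 / (2 * q) := by field_simp
      have h6 : 1 / (q : ℝ) = 1 / (2 * q) + 1 / (2 * q) := by field_simp; norm_num
      rw [h5]
      linarith)
    refine h2.trans ?_
    have h3 : (q : ℝ) / (2 * (N / (2 * q))) = q ^ 2 / N := by field_simp
    rw [h3, div_le_iff₀ hN0]
    have h4 : (q : ℝ) ^ 2 ≤ 2 ^ (m / 200 + m / 200) := by
      rw [pow_add, sq]
      exact mul_le_mul hqR hqR hq0.le (by positivity)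
    have h5 : (2 : ℝ) ^ (m / 200 + m / 200) * 2 ^ (m / 300) * 2 ≤ 2 ^ m := by
      rw [← pow_add, ← pow_succ]
      exact pow_le_pow_right₀ (by norm_num) (by omega)
    have h6 : (1 / 2 : ℝ) ^ (m / 300) * 2 ^ (m / 300) = 1 := by
      rw [← mul_pow]; norm_num
    have h7 : (2 : ℝ) ^ (m / 200 + m / 200) * 2 ^ (m / 300) ≤ N := by linarith
    calc (q : ℝ) ^ 2 ≤ 2 ^ (m / 200 + m / 200) := h4
      _ = (1 / 2 : ℝ) ^ (m / 300) * (2 ^ (m / 200 + m / 200) * 2 ^ (m / 300)) := by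
          rw [mul_left_comm, h6, mul_one]
      _ ≤ _ := by gcongr
  · set t : ℤ := round ((q : ℝ) * (x - y)) with ht
    have h1 : nd (x - y - (t : ℝ) / q) ≤ nd (q * (x - y)) / q := by
      refine (nd_le_abs _).trans (le_of_eq ?_)
      unfold nd
      rw [← ht]
      have h2 : (x - y) - (t : ℝ) / q = (q * (x - y) - t) / q := by field_simp
      rw [h2, abs_div, abs_of_pos hq0]
    have h2 := (h t).trans h1
    rw [div_le_div_iff₀ hp0 hq0] at h2
    have hnd : 0 < nd (q * (x - y)) := by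
      by_contra h3
      push Not at h3
      have h4 : nd (q * (x - y)) * 2 ^ m ≤ 0 := mul_nonpos_of_nonpos_of_nonneg h3 hp0.le
      have h5 : (0 : ℝ) < 2 ^ (m / 100) * q := by positivity
      linarith
    refine (hK2 hnd).trans ?_
    rw [div_le_iff₀ (by positivity)]
    have h6 : (1 / 2 : ℝ) ^ (m / 300) * 2 ^ (m / 300) = 1 := by
      rw [← mul_pow]; norm_num
    have h5 : (2 : ℝ) ^ (m / 300) * 2 ≤ 2 ^ (m / 100) := by
      rw [← pow_succ]
      exact pow_le_pow_right₀ (by norm_num) (by omega)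
    have h7 : (2 : ℝ) ^ (m / 300) * q ≤ N * nd (q * (x - y)) := by
      have h8 : (2 : ℝ) ^ (m / 100) * q ≤ nd (q * (x - y)) * (2 * N) :=
        h2.trans (mul_le_mul_of_nonneg_left hN2 hnd.le)
      have h9 : (2 : ℝ) ^ (m / 300) * 2 * q ≤ 2 ^ (m / 100) * q :=
        mul_le_mul_of_nonneg_right h5 hq0.le
      linarith
    calc (q : ℝ) = (1 / 2 : ℝ) ^ (m / 300) * (2 ^ (m / 300) * q) := by
          rw [← mul_assoc, h6, one_mul]
      _ ≤ _ := by gcongr

/-- row NRS -/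
theorem pf_NRS : T_NRS := by
  have hK : T_KER := Pool.Agent.H30.GSW.pf_KER Pool.Agent.H76.GSW.pf_GEX
  refine ⟨300, fun m N n q F hm hN hq h => ?_⟩
  rw [nrs_eq]
  refine (Complex.abs_re_le_norm _).trans ?_
  have h1 : ∀ i ∈ range F.k, ∀ j ∈ range F.k, ‖(starRingEnd ℂ) (F.c i) * (F.c j *
      ac 1 N n (fun m => (EB.D q m : ℂ) * ee ((F.a j - F.a i) * m)))‖ ≤
      ‖F.c i‖ * (‖F.c j‖ * (1 / 2) ^ (m / 300)) := by
    intro i hi j hj
    rw [norm_mul, norm_mul, Complex.norm_conj]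
    by_cases h2 : F.c i = 0
    · rw [h2, norm_zero, zero_mul, zero_mul]
    by_cases h3 : F.c j = 0
    · rw [h3, norm_zero, zero_mul, zero_mul]
    have h4 := nrs_ker hK m N n q (F.a j) (F.a i) hm hN hq
      (h j (mem_range.1 hj) i (mem_range.1 hi) h3 h2)
    gcongr
  refine (norm_sum_le _ _).trans ?_
  calc _ ≤ ∑ i ∈ range F.k, ∑ j ∈ range F.k, ‖F.c i‖ * (‖F.c j‖ * (1 / 2) ^ (m / 300)) :=
        sum_le_sum fun i hi => (norm_sum_le _ _).trans (sum_le_sum fun j hj => h1 i hi j hj)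
    _ = F.nm ^ 2 * (1 / 2) ^ (m / 300) := by
        unfold Ex.nm
        rw [sq, sum_mul_sum, sum_mul]
        refine sum_congr rfl fun i _ => ?_
        rw [sum_mul]
        refine sum_congr rfl fun j _ => ?_
        ring

end Pool.Agent.H37.G9
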